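import Pool.Agent.Helper75.PZ.Stmts

set_option autoImplicit false

universe u

namespace Pool.Agent.Helper28.PZ

open Pool.Agent.Helper75.PZ

theorem st_NZK : ST_NZK.{u} := by
  intro F K A M _ _ _ _ _ _ _ _ σ g c hF hM hσ hS ζ hζ
  have hinj := (algebraMap K A).injective
  obtain ⟨x, hx⟩ : ∃ x : A, x = algebraMap K A ζ := ⟨_, rfl⟩
  have hζ0 : ζ ≠ 0 := by
    rintro rfl
    simp at hζ
  have hx0 : x ≠ 0 := by
    rw [hx]
    exact (map_ne_zero_iff _ hinj).mpr hζ0
  have hx2 : x * x + x + 1 = 0 := by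
    have := congrArg (algebraMap K A) hζ
    simp only [map_add, map_pow, map_one, map_zero, ← hx] at this
    rw [pow_two] at this
    exact this
  have hζ3 : ζ * ζ * ζ = 1 := by
    have : ζ * ζ * ζ - 1 = (ζ - 1) * (ζ ^ 2 + ζ + 1) := by ring
    rw [hζ, mul_zero, sub_eq_zero] at this
    exact this
  have hx3 : x * x * x = 1 := by
    have := congrArg (algebraMap K A) hζ3
    simp only [map_mul, map_one, ← hx] at this
    exact this
  obtain ⟨h1a, -⟩ := hS.fs 1 one_ne_zero
  rw [map_one, map_one] at h1a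
  obtain ⟨h2a, h2b⟩ := hS.fs (-1) (neg_ne_zero.mpr one_ne_zero)
  simp only [map_neg, map_one] at h2a h2b
  have hxx : x * x ≠ 0 := fun h => by
    rw [h, zero_mul] at hx3
    exact zero_ne_one hx3
  have hg3 : g x + g x + g x = 0 := by
    rw [← hS.gmul x x hx0 hx0, ← hS.gmul (x * x) x hxx hx0, hx3, h1a]
  have hg : g x = 0 := by
    have e1 : (ofLex (g x)).1 + (ofLex (g x)).1 + (ofLex (g x)).1 = 0 :=
      congrArg (fun t : G2 => (ofLex t).1) hg3
    have e2 : (ofLex (g x)).2 + (ofLex (g x)).2 + (ofLex (g x)).2 = 0 :=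
      congrArg (fun t : G2 => (ofLex t).2) hg3
    have e3 : (ofLex (g x)).1 = 0 := by omega
    have e4 : (ofLex (g x)).2 = 0 := by omega
    have e5 : ofLex (g x) = (0 : ℤ × ℤ) := Prod.ext e3 e4
    exact e5
  have hgxx : g (x * x) = 0 := by rw [hS.gmul x x hx0 hx0, hg, add_zero]
  have hn : n1 (0 : G2) = 0 := rfl
  have hcxx : c (x * x) = c x * c x := by
    rw [hS.cmul x x hx0 hx0, hg, hn]
    simp
  have hsum : x * x + x = -1 := by
    have : x * x + x + 1 - 1 = 0 - 1 := by rw [hx2]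
    simpa using this
  have hm : c x * c x + c x = -1 := by
    by_cases h : c (x * x) + c x = 0
    · rcases hS.addz (x * x) x hxx hx0 (by rw [hgxx, hg]) h with h3 | h3
      · rw [h3] at hsum
        exact absurd hsum.symm (neg_ne_zero.mpr one_ne_zero)
      · rw [hsum, h2a, hgxx] at h3
        exact absurd h3 (lt_irrefl _)
    · obtain ⟨-, -, h4⟩ := hS.addeq (x * x) x hxx hx0 (by rw [hgxx, hg]) h
      rw [hsum, h2b, hcxx] at h4
      exact h4.symm
  have hm2 : c x ^ 2 + c x + 1 = 0 := by rw [pow_two, hm]; ring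
  obtain ⟨r, hr⟩ := hM (c x) (by
    refine ⟨Polynomial.X ^ 2 + Polynomial.X + 1, ?_, by simpa using hm2⟩
    intro h0
    have := congrArg (fun p : Polynomial F => p.coeff 2) h0
    simp [Polynomial.coeff_X, Polynomial.coeff_one] at this)
  apply hF r
  apply (algebraMap F M).injective
  rw [map_zero, map_add, map_add, map_pow, map_one, ← hr]
  exact hm2

end Pool.Agent.Helper28.PZ
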